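import Pool.Agent.Y480.KG.RdfB
import Pool.Agent.Y714.KE.Bas

set_option autoImplicit false
set_option linter.unusedSectionVars false
set_option linter.unusedVariables false
set_option linter.unusedSimpArgs false

/-! Project KG: reduction of lattices over the integers of a number field. -/

namespace Pool.Agent.Y480.KG

open Pool.Agent.Y714.KG
open Pool.Agent.Y714.KE (Al FA FU Em Ux dg cf cp vc cn nA sm un SYM QY tt)
open Pool.Agent.Y714.KF (FI sp ct nm pm ext br ubas qf)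
open NumberField Module Finset ComplexConjugate

theorem lagC {J : Type} [Fintype J] (w : J → ℝ) (a b : J → ℂ) :
    2 * ((∑ e, w e * ‖a e‖ ^ 2) * (∑ e, w e * ‖b e‖ ^ 2) -
      ‖∑ e, (w e : ℂ) * (a e * conj (b e))‖ ^ 2) =
      ∑ e, ∑ f, w e * w f * ‖a e * b f - a f * b e‖ ^ 2 := by
  have hn : ∀ z : ℂ, ((‖z‖ ^ 2 : ℝ) : ℂ) = z * conj z := fun z => by
    rw [Complex.mul_conj, Complex.normSq_eq_norm_sq]
  have h3 : ((2 * ((∑ e, w e * ‖a e‖ ^ 2) * (∑ e, w e * ‖b e‖ ^ 2) -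
      ‖∑ e, (w e : ℂ) * (a e * conj (b e))‖ ^ 2) : ℝ) : ℂ) =
      ((∑ e, ∑ f, w e * w f * ‖a e * b f - a f * b e‖ ^ 2 : ℝ) : ℂ) := by
    rw [Complex.ofReal_mul, Complex.ofReal_sub, hn, Complex.ofReal_mul]
    simp only [Complex.ofReal_sum]
    have e1 : ∀ e f : J, ((w e * w f * ‖a e * b f - a f * b e‖ ^ 2 : ℝ) : ℂ) =
        ((w e * ‖a e‖ ^ 2 : ℝ) : ℂ) * ((w f * ‖b f‖ ^ 2 : ℝ) : ℂ) +
        ((w e * ‖b e‖ ^ 2 : ℝ) : ℂ) * ((w f * ‖a f‖ ^ 2 : ℝ) : ℂ) -
        ((w e : ℂ) * (a e * conj (b e))) * ((w f : ℂ) * (b f * conj (a f))) -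
        ((w e : ℂ) * (b e * conj (a e))) * ((w f : ℂ) * (a f * conj (b f))) := by
      intro e f
      simp only [Complex.ofReal_mul, hn, map_sub, map_mul]
      ring
    simp only [e1, sum_sub_distrib, sum_add_distrib, ← sum_mul_sum]
    have e2 : conj (∑ e, (w e : ℂ) * (a e * conj (b e))) = ∑ e, (w e : ℂ) * (b e * conj (a e)) := by
      rw [map_sum]
      refine sum_congr rfl fun e _ => ?_
      rw [map_mul, map_mul, Complex.conj_conj, Complex.conj_ofReal, mul_comm (conj (a e))]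
    rw [e2]
    push_cast
    ring
  exact_mod_cast h3

section

variable (F : Type) [Field F] [NumberField F] {s : Type} [Fintype s] [DecidableEq s]
  (K : s → Type) [∀ i, Field (K i)] [∀ i, NumberField (K i)] [∀ i, Algebra F (K i)]

theorem sum_fib {M : Type} [AddCommMonoid M] (f : Em K → M) :
    ∑ e, f e = ∑ w : F →+* ℂ, ∑ e : Ef F K w, f e.1 := by
  let E : (Σ w : F →+* ℂ, Ef F K w) ≃ Em K := Equiv.sigmaFiberEquiv (rs F)
  calc ∑ e, f e = ∑ x : (Σ w : F →+* ℂ, Ef F K w), f (E x) := (Equiv.sum_comp E f).symm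
    _ = _ := Fintype.sum_sigma _

theorem rs_cj (e : Em K) : rs F (Pool.Agent.Y714.KE.cj e) = ComplexEmbedding.conjugate (rs F e) := by
  rfl

/-- conjugation of fibres -/
noncomputable def cE (w : F →+* ℂ) : Ef F K w ≃ Ef F K (ComplexEmbedding.conjugate w) :=
  Equiv.subtypeEquiv Pool.Agent.Y714.KE.cj fun e => by
    rw [rs_cj]
    constructor
    · rintro rfl; rfl
    · intro h
      have := congrArg ComplexEmbedding.conjugate h
      simpa [ComplexEmbedding.conjugate] using this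

variable {K}

/-- weights -/
noncomputable def we (y : s → ℝ) (w : F →+* ℂ) (e : Ef F K w) : ℝ := Real.exp (-(2 * y e.1.1))

/-- first coefficient -/
noncomputable def fA (y : s → ℝ) (P : Al K × Al K) (w : F →+* ℂ) : ℝ :=
  ∑ e : Ef F K w, we F y w e * ‖(vc P e.1).1‖ ^ 2

/-- last coefficient -/
noncomputable def fB (y : s → ℝ) (P : Al K × Al K) (w : F →+* ℂ) : ℝ :=
  ∑ e : Ef F K w, we F y w e * ‖(vc P e.1).2‖ ^ 2

/-- middle coefficient -/
noncomputable def fH (y : s → ℝ) (P : Al K × Al K) (w : F →+* ℂ) : ℂ :=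
  ∑ e : Ef F K w, (we F y w e : ℂ) * ((vc P e.1).1 * conj (vc P e.1).2)

theorem Qf_fib (y : s → ℝ) (P : Al K × Al K) (w : F →+* ℂ) (a b : ℂ) :
    Qf (fA F y P w) (fH F y P w) (fB F y P w) a b =
      ∑ e : Ef F K w, we F y w e * ‖a * (vc P e.1).1 + b * (vc P e.1).2‖ ^ 2 := by
  have h : ∀ e : Ef F K w, we F y w e * ‖a * (vc P e.1).1 + b * (vc P e.1).2‖ ^ 2 =
      (we F y w e * ‖(vc P e.1).1‖ ^ 2) * ‖a‖ ^ 2 +
      2 * ((we F y w e : ℂ) * ((vc P e.1).1 * conj (vc P e.1).2) * a * conj b).re +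
      (we F y w e * ‖(vc P e.1).2‖ ^ 2) * ‖b‖ ^ 2 := by
    intro e
    simp only [Complex.sq_norm, Complex.normSq_apply, Complex.add_re, Complex.add_im,
      Complex.mul_re, Complex.mul_im, Complex.conj_re, Complex.conj_im,
      Complex.ofReal_re, Complex.ofReal_im]
    ring
  rw [sum_congr rfl fun e _ => h e, sum_add_distrib, sum_add_distrib, ← sum_mul, ← sum_mul,
    ← mul_sum, ← Complex.re_sum, ← sum_mul, ← sum_mul]
  rfl

theorem QY_fib (y : s → ℝ) (P : Al K × Al K) (a b : F) :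
    QY y (fa F K a * P.1 + fa F K b * P.2) =
      ∑ w : F →+* ℂ, Qf (fA F y P w) (fH F y P w) (fB F y P w) (w a) (w b) := by
  rw [Pool.Agent.Y714.KE.QY_eq, sum_fib F K]
  refine sum_congr rfl fun w _ => ?_
  rw [Qf_fib]
  refine sum_congr rfl fun e _ => ?_
  have : e.1.2 ((fa F K a * P.1 + fa F K b * P.2) e.1.1) =
      w a * (vc P e.1).1 + w b * (vc P e.1).2 := by
    have h1 : ∀ x : F, e.1.2 (algebraMap F (K e.1.1) x) = w x := fun x => by
      exact congrArg (fun g : F →+* ℂ => g x) e.2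
    have h2 : (fa F K a * P.1 + fa F K b * P.2) e.1.1 =
      algebraMap F (K e.1.1) a * P.1 e.1.1 + algebraMap F (K e.1.1) b * P.2 e.1.1 := rfl
    rw [h2, map_add, map_mul, map_mul, h1, h1]
    rfl
  rw [this]
  rfl

theorem det_fib (y : s → ℝ) (P : Al K × Al K) (w : F →+* ℂ) :
    2 * (fA F y P w * fB F y P w - ‖fH F y P w‖ ^ 2) =
      ∑ e : Ef F K w, ∑ f : Ef F K w, we F y w e * we F y w f * ‖br (vc P e.1) (vc P f.1)‖ ^ 2 := by
  have h := lagC (fun e : Ef F K w => we F y w e) (fun e => (vc P e.1).1) (fun e => (vc P e.1).2)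
  rw [show fA F y P w = ∑ e : Ef F K w, we F y w e * ‖(vc P e.1).1‖ ^ 2 from rfl,
    show fB F y P w = ∑ e : Ef F K w, we F y w e * ‖(vc P e.1).2‖ ^ 2 from rfl,
    show fH F y P w = ∑ e : Ef F K w, (we F y w e : ℂ) * ((vc P e.1).1 * conj (vc P e.1).2) from rfl,
    h]
  refine sum_congr rfl fun e _ => sum_congr rfl fun f _ => ?_
  have : br (vc P e.1) (vc P f.1) =
      (vc P e.1).1 * (vc P f.1).2 - (vc P f.1).1 * (vc P e.1).2 := by
    unfold br; ring
  rw [this]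

theorem fA_conj (y : s → ℝ) (P : Al K × Al K) (w : F →+* ℂ) :
    fA F y P (ComplexEmbedding.conjugate w) = fA F y P w := by
  unfold fA
  rw [← Equiv.sum_comp (cE F K w)]
  refine sum_congr rfl fun e _ => ?_
  have : (vc P ((cE F K w) e).1).1 = conj (vc P e.1).1 := rfl
  rw [this, Complex.norm_conj]
  rfl

theorem fB_conj (y : s → ℝ) (P : Al K × Al K) (w : F →+* ℂ) :
    fB F y P (ComplexEmbedding.conjugate w) = fB F y P w := by
  unfold fB
  rw [← Equiv.sum_comp (cE F K w)]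
  refine sum_congr rfl fun e _ => ?_
  have : (vc P ((cE F K w) e).1).2 = conj (vc P e.1).2 := rfl
  rw [this, Complex.norm_conj]
  rfl

theorem fH_conj (y : s → ℝ) (P : Al K × Al K) (w : F →+* ℂ) :
    fH F y P (ComplexEmbedding.conjugate w) = conj (fH F y P w) := by
  unfold fH
  rw [← Equiv.sum_comp (cE F K w), map_sum]
  refine sum_congr rfl fun e _ => ?_
  have h1 : (vc P ((cE F K w) e).1).1 = conj (vc P e.1).1 := rfl
  have h2 : (vc P ((cE F K w) e).1).2 = conj (vc P e.1).2 := rfl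
  rw [h1, h2, map_mul, map_mul, Complex.conj_ofReal]
  rfl

variable (K)

theorem rdf (h1 : S_MK) (h2 : S_CRD F K) : S_RDF F K := by
  intro hdF I C₁
  obtain ⟨C, hC, hred⟩ := red F h1
  obtain ⟨M, hM⟩ : ∃ M : ℝ, M = dF F K * |C₁| + 1 := ⟨_, rfl⟩
  have hM0 : 0 < M := by rw [hM]; positivity
  refine ⟨C + C * M + C * M ^ 2, by positivity, fun y P hP hND hbr => ?_⟩
  have hwe : ∀ (w : F →+* ℂ) (e : Ef F K w), 0 < we F y w e := fun w e => Real.exp_pos _
  -- the determinants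
  have hD0 : ∀ w : F →+* ℂ, 0 < fA F y P w * fB F y P w - ‖fH F y P w‖ ^ 2 := by
    intro w
    have h := det_fib F y P w
    have h3 : 0 < ∑ e : Ef F K w, ∑ f : Ef F K w,
        we F y w e * we F y w f * ‖br (vc P e.1) (vc P f.1)‖ ^ 2 := by
      obtain ⟨e, f, hef⟩ : ∃ e f : Ef F K w, e ≠ f := by
        have : 1 < Fintype.card (Ef F K w) := by rw [h2.2.1]; omega
        exact Fintype.exists_pair_of_one_lt_card this
      have hb : br (vc P e.1) (vc P f.1) ≠ 0 :=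
        hND e.1 f.1 (fun h => hef (Subtype.ext h)) (e.2.trans f.2.symm)
      have hb' := norm_pos_iff.2 hb
      refine sum_pos' (fun e _ => sum_nonneg fun f _ => ?_) ⟨e, mem_univ e, ?_⟩
      · have := hwe w e; have := hwe w f; positivity
      · refine sum_pos' (fun f _ => ?_) ⟨f, mem_univ f, ?_⟩
        · have := hwe w e; have := hwe w f; positivity
        · have := hwe w e; have := hwe w f; positivity
    linarith
  have hDle : ∀ w : F →+* ℂ, fA F y P w * fB F y P w - ‖fH F y P w‖ ^ 2 ≤ M ^ 2 := by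
    intro w
    have h := det_fib F y P w
    have h3 : ∀ e f : Ef F K w,
        we F y w e * we F y w f * ‖br (vc P e.1) (vc P f.1)‖ ^ 2 ≤ C₁ ^ 2 := by
      intro e f
      have e1 := hbr e.1 f.1 (e.2.trans f.2.symm)
      have e2 : ‖br (vc P e.1) (vc P f.1)‖ ^ 2 ≤ (C₁ * Real.exp (y e.1.1 + y f.1.1)) ^ 2 :=
        pow_le_pow_left₀ (norm_nonneg _) e1 2
      have e3 : we F y w e * we F y w f * (C₁ * Real.exp (y e.1.1 + y f.1.1)) ^ 2 = C₁ ^ 2 := by
        have : we F y w e * we F y w f * Real.exp (y e.1.1 + y f.1.1) ^ 2 = 1 := by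
          unfold we
          rw [← Real.exp_add, ← Real.exp_nat_mul, ← Real.exp_add, ← Real.exp_zero]
          congr 1
          push_cast
          ring
        calc _ = C₁ ^ 2 * (we F y w e * we F y w f * Real.exp (y e.1.1 + y f.1.1) ^ 2) := by ring
          _ = _ := by rw [this, mul_one]
      rw [← e3]
      have := hwe w e; have := hwe w f
      exact mul_le_mul_of_nonneg_left e2 (by positivity)
    have h4 : ∑ e : Ef F K w, ∑ f : Ef F K w,
        we F y w e * we F y w f * ‖br (vc P e.1) (vc P f.1)‖ ^ 2 ≤ (dF F K : ℝ) ^ 2 * C₁ ^ 2 := by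
      calc _ ≤ ∑ e : Ef F K w, ∑ f : Ef F K w, C₁ ^ 2 :=
            sum_le_sum fun e _ => sum_le_sum fun f _ => h3 e f
        _ = _ := by
          rw [sum_const, sum_const, card_univ, h2.2.1, nsmul_eq_mul, nsmul_eq_mul]
          ring
    have h5 : (dF F K : ℝ) ^ 2 * C₁ ^ 2 ≤ M ^ 2 := by
      rw [hM, ← sq_abs C₁, ← mul_pow]
      exact pow_le_pow_left₀ (by positivity) (by linarith) 2
    have h6 := hD0 w
    linarith
  have hAn : ∀ w : F →+* ℂ, 0 ≤ fA F y P w := fun w =>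
    sum_nonneg fun e _ => mul_nonneg (hwe w e).le (sq_nonneg _)
  have hBn : ∀ w : F →+* ℂ, 0 ≤ fB F y P w := fun w =>
    sum_nonneg fun e _ => mul_nonneg (hwe w e).le (sq_nonneg _)
  have hA0 : ∀ w : F →+* ℂ, 0 < fA F y P w := by
    intro w
    rcases (hAn w).eq_or_lt with h | h
    · exfalso
      have := hD0 w
      rw [← h] at this
      nlinarith [sq_nonneg ‖fH F y P w‖]
    · exact h
  obtain ⟨δ, hδ⟩ : ∃ δ : (F →+* ℂ) → ℝ, ∀ w, δ w =
    √(fA F y P w * fB F y P w - ‖fH F y P w‖ ^ 2) := ⟨_, fun _ => rfl⟩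
  have hδ0 : ∀ w, 0 < δ w := fun w => by rw [hδ]; exact Real.sqrt_pos.2 (hD0 w)
  have hδ2 : ∀ w, δ w ^ 2 = fA F y P w * fB F y P w - ‖fH F y P w‖ ^ 2 := fun w => by
    rw [hδ, Real.sq_sqrt (hD0 w).le]
  have hδM : ∀ w, δ w ≤ M := fun w => by
    have := hDle w
    rw [← hδ2] at this
    exact (pow_le_pow_iff_left₀ (hδ0 w).le hM0.le two_ne_zero).1 this
  have hcard : Fintype.card (F →+* ℂ) ≠ 0 := Fintype.card_ne_zero
  obtain ⟨γ, hγ0, hγ⟩ : ∃ γ : ℝ, 0 < γ ∧ γ ^ Fintype.card (F →+* ℂ) = ∏ w, δ w := by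
    have hp : 0 < ∏ w, δ w := prod_pos fun w _ => hδ0 w
    exact ⟨(∏ w, δ w) ^ ((Fintype.card (F →+* ℂ) : ℝ)⁻¹), Real.rpow_pos_of_pos hp _,
      Real.rpow_inv_natCast_pow hp.le hcard⟩
  have hγM : γ ≤ M := by
    have : γ ^ Fintype.card (F →+* ℂ) ≤ M ^ Fintype.card (F →+* ℂ) := by
      rw [hγ]
      calc ∏ w, δ w ≤ ∏ w : F →+* ℂ, M := prod_le_prod (fun w _ => (hδ0 w).le) fun w _ => hδM w
        _ = _ := by rw [prod_const, card_univ]
    exact (pow_le_pow_iff_left₀ hγ0.le hM0.le hcard).1 this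
  obtain ⟨x₀, y₀, x₁, y₁, hΔ, hN, hq0, hq1, hq2⟩ := hred (fA F y P) (fB F y P) δ (fH F y P) γ
    hA0 hδ0 hδ2 (fA_conj F y P) (fB_conj F y P) (fH_conj F y P) hγ0 hγ
  rw [← QY_fib] at hq0 hq1 hq2
  rw [← QY_fib] at hq2
  have hspan : Ideal.span {x₀ * y₁ - y₀ * x₁} ≠ ⊥ := by
    rwa [Ne, Ideal.span_singleton_eq_bot]
  have hm := Ideal.absNorm_mem (Ideal.span {x₀ * y₁ - y₀ * x₁})
  obtain ⟨δ', hδ'⟩ := Ideal.mem_span_singleton.1 hm
  refine ⟨_, ⟨x₀, y₀, rfl⟩, _, ⟨x₁, y₁, rfl⟩, Ideal.absNorm (Ideal.span {x₀ * y₁ - y₀ * x₁}),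
    Nat.pos_of_ne_zero (fun h => hspan (Ideal.absNorm_eq_zero_iff.1 h)), ?_, hq0, ?_, ?_, ?_, ?_⟩
  · rw [absNorm_eq]
    have : 0 ≤ C * M + C * M ^ 2 := by positivity
    linarith
  · have e1 : C * γ ≤ C * M := mul_le_mul_of_nonneg_left hγM hC.le
    have : 0 ≤ C + C * M ^ 2 := by positivity
    linarith
  · have e1 : C * γ ^ 2 ≤ C * M ^ 2 :=
      mul_le_mul_of_nonneg_left (pow_le_pow_left₀ hγ0.le hγM 2) hC.le
    have : 0 ≤ C + C * M := by positivity
    linarith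
  · -- independence
    intro c d hcd
    have e1 : fa F K (c * x₀ + d * x₁) * P.1 + fa F K (c * y₀ + d * y₁) * P.2 = 0 := by
      rw [← hcd]
      simp only [map_add, map_mul]
      ring
    have hind : ∀ a b : F, fa F K a * P.1 + fa F K b * P.2 = 0 → a = 0 ∧ b = 0 := by
      intro a b hab
      by_contra hne
      have e2 := QY_fib F y P a b
      rw [hab] at e2
      have e3 : QY y (0 : Al K) = 0 := by
        rw [Pool.Agent.Y714.KE.QY_eq]; simp
      rw [e3] at e2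
      have e4 : 0 < ∑ w : F →+* ℂ, Qf (fA F y P w) (fH F y P w) (fB F y P w) (w a) (w b) := by
        refine sum_pos (fun w _ => Qf_pos (hA0 w) (hδ0 w) (hδ2 w) ?_) univ_nonempty
        rintro ⟨h, h'⟩
        exact hne ⟨(map_eq_zero w).1 h, (map_eq_zero w).1 h'⟩
      linarith
    obtain ⟨e2, e3⟩ := hind _ _ e1
    have hΔ' : (x₀ : F) * y₁ - y₀ * x₁ ≠ 0 := by
      intro h
      apply hΔ
      have : ((x₀ * y₁ - y₀ * x₁ : 𝓞 F) : F) = 0 := by push_cast; exact h
      exact_mod_cast this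
    constructor
    · have : c * ((x₀ : F) * y₁ - y₀ * x₁) = 0 := by
        linear_combination (y₁ : F) * e2 - (x₁ : F) * e3
      exact (mul_eq_zero.1 this).resolve_right hΔ'
    · have : d * ((x₀ : F) * y₁ - y₀ * x₁) = 0 := by
        linear_combination (x₀ : F) * e3 - (y₀ : F) * e2
      exact (mul_eq_zero.1 this).resolve_right hΔ'
  · rintro x ⟨a, b, rfl⟩
    refine ⟨δ' * (a * y₁ - b * x₁), δ' * (x₀ * b - y₀ * a), ?_⟩
    have hm' : ((Ideal.absNorm (Ideal.span {x₀ * y₁ - y₀ * x₁}) : ℕ) : F) =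
        (x₀ * y₁ - y₀ * x₁) * δ' := by
      have := congrArg (fun z : 𝓞 F => (z : F)) hδ'
      simpa using this
    have hm'' : ((Ideal.absNorm (Ideal.span {x₀ * y₁ - y₀ * x₁}) : ℕ) : Al K) =
        fa F K ((x₀ * y₁ - y₀ * x₁) * δ') := by
      rw [← hm', map_natCast]
    rw [hm'']
    push_cast
    simp only [map_add, map_mul, map_sub]
    ring

end

end Pool.Agent.Y480.KG
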