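import Pool.Agent.Y714.KG.Stm

set_option autoImplicit false
set_option linter.unusedSectionVars false
set_option linter.unusedVariables false
set_option linter.unusedSimpArgs false

/-! Binary Hermitian forms over a number field: reduction. -/

namespace Pool.Agent.Y480.KG

open Pool.Agent.Y714.KG
open NumberField Module Finset ComplexConjugate

/-- value of a Hermitian form -/
noncomputable def Qf (A : ℝ) (H : ℂ) (B : ℝ) (x y : ℂ) : ℝ :=
  A * ‖x‖ ^ 2 + 2 * (H * x * conj y).re + B * ‖y‖ ^ 2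

/-- values of the sesquilinear form -/
noncomputable def Hf (A : ℝ) (H : ℂ) (B : ℝ) (x y x' y' : ℂ) : ℂ :=
  A * x * conj x' + H * x * conj y' + conj H * y * conj x' + B * y * conj y'

theorem Qf_conj (A : ℝ) (H : ℂ) (B : ℝ) (x y : ℂ) :
    Qf A (conj H) B (conj x) (conj y) = Qf A H B x y := by
  unfold Qf
  rw [Complex.norm_conj, Complex.norm_conj]
  have : (conj H * conj x * conj (conj y)) = conj (H * x * conj y) := by
    rw [map_mul, map_mul]
  rw [this, Complex.conj_re]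

theorem lag (A : ℝ) (H : ℂ) (B : ℝ) (x y x' y' : ℂ) :
    Qf A H B x y * Qf A H B x' y' - ‖Hf A H B x y x' y'‖ ^ 2 =
      (A * B - ‖H‖ ^ 2) * ‖x * y' - y * x'‖ ^ 2 := by
  unfold Qf Hf
  simp only [Complex.sq_norm, Complex.normSq_apply, Complex.add_re, Complex.add_im, Complex.mul_re,
    Complex.mul_im, Complex.sub_re, Complex.sub_im, Complex.conj_re, Complex.conj_im,
    Complex.ofReal_re, Complex.ofReal_im]
  ring

theorem Qf_sq {A : ℝ} (hA : 0 < A) (H : ℂ) (B : ℝ) (x y : ℂ) :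
    Qf A H B x y = A * ‖x + conj H / A * y‖ ^ 2 + (A * B - ‖H‖ ^ 2) / A * ‖y‖ ^ 2 := by
  have e : (conj H / (A : ℂ)) = ((H.re / A : ℝ) : ℂ) - ((H.im / A : ℝ) : ℂ) * Complex.I := by
    apply Complex.ext
    · simp [Complex.div_re, Complex.normSq_apply]
    · simp [Complex.div_im, Complex.normSq_apply]; field_simp
  rw [e]
  unfold Qf
  simp only [Complex.sq_norm, Complex.normSq_apply, Complex.add_re, Complex.add_im, Complex.mul_re,
    Complex.mul_im, Complex.sub_re, Complex.sub_im, Complex.conj_re, Complex.conj_im,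
    Complex.ofReal_re, Complex.ofReal_im, Complex.I_re, Complex.I_im]
  field_simp
  ring

/-- adding a rank one form -/
theorem Qf_add (A : ℝ) (H : ℂ) (B : ℝ) (r k : ℝ) (g h : ℂ) (x y : ℂ) :
    Qf (r * A + k * ‖g‖ ^ 2) (r * H + k * (g * conj h)) (r * B + k * ‖h‖ ^ 2) x y =
      r * Qf A H B x y + k * ‖x * g + y * h‖ ^ 2 := by
  unfold Qf
  simp only [Complex.sq_norm, Complex.normSq_apply, Complex.add_re, Complex.add_im, Complex.mul_re,
    Complex.mul_im, Complex.sub_re, Complex.sub_im, Complex.conj_re, Complex.conj_im,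
    Complex.ofReal_re, Complex.ofReal_im]
  ring

theorem det_add (A : ℝ) (H : ℂ) (B : ℝ) (r k : ℝ) (x₀ y₀ : ℂ) :
    (r * A + k * ‖A * conj x₀ + H * conj y₀‖ ^ 2) * (r * B + k * ‖conj H * conj x₀ + B * conj y₀‖ ^ 2) -
      ‖r * H + k * ((A * conj x₀ + H * conj y₀) * conj (conj H * conj x₀ + B * conj y₀))‖ ^ 2 =
      r * (r + k * Qf A H B x₀ y₀) * (A * B - ‖H‖ ^ 2) := by
  unfold Qf
  simp only [Complex.sq_norm, Complex.normSq_apply, Complex.add_re, Complex.add_im, Complex.mul_re,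
    Complex.mul_im, Complex.sub_re, Complex.sub_im, Complex.conj_re, Complex.conj_im,
    Complex.ofReal_re, Complex.ofReal_im]
  ring

theorem Hf_eq (A : ℝ) (H : ℂ) (B : ℝ) (x y x₀ y₀ : ℂ) :
    Hf A H B x y x₀ y₀ = x * (A * conj x₀ + H * conj y₀) + y * (conj H * conj x₀ + B * conj y₀) := by
  unfold Hf; ring

section

variable (F : Type) [Field F] [NumberField F]

theorem one_le_prod {x : 𝓞 F} (hx : x ≠ 0) : 1 ≤ ∏ w : F →+* ℂ, ‖w (x : F)‖ := by
  have h1 := Algebra.norm_eq_prod_embeddings ℚ ℂ (x : F)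
  have h3 : ∏ σ : F →+* ℂ, σ (x : F) = ∏ σ : F →ₐ[ℚ] ℂ, σ (x : F) :=
    Fintype.prod_equiv (RingHom.equivRatAlgHom F ℂ) _ _ fun σ => by
      simp [RingHom.equivRatAlgHom_apply]
  have h2 : IsIntegral ℤ (Algebra.norm ℚ (x : F)) := Algebra.isIntegral_norm ℚ x.isIntegral_coe
  obtain ⟨n, hn⟩ := IsIntegrallyClosed.isIntegral_iff.mp h2
  have hn0 : n ≠ 0 := by
    rintro rfl
    rw [map_zero] at hn
    exact hx (by simpa using Algebra.norm_eq_zero_iff.mp hn.symm)
  rw [← norm_prod, h3, ← h1, ← hn]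
  rw [eq_intCast, eq_ratCast, Rat.cast_intCast, Complex.norm_intCast]
  exact_mod_cast Int.one_le_abs hn0

/-- the index is the product of the conjugates -/
theorem absNorm_eq (x : 𝓞 F) : ((Ideal.absNorm (Ideal.span {x}) : ℕ) : ℝ) =
    ∏ w : F →+* ℂ, ‖w (x : F)‖ := by
  have h1 := Algebra.norm_eq_prod_embeddings ℚ ℂ (x : F)
  have h3 : ∏ σ : F →+* ℂ, σ (x : F) = ∏ σ : F →ₐ[ℚ] ℂ, σ (x : F) :=
    Fintype.prod_equiv (RingHom.equivRatAlgHom F ℂ) _ _ fun σ => by
      simp [RingHom.equivRatAlgHom_apply]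
  rw [← norm_prod, h3, ← h1, Ideal.absNorm_span_singleton]
  have h4 : Algebra.norm ℚ (x : F) = ((Algebra.norm ℤ x : ℤ) : ℚ) :=
    (Algebra.coe_norm_int x).symm
  rw [h4, eq_ratCast, Rat.cast_intCast, Complex.norm_intCast, Nat.cast_natAbs]
  simp

end

end Pool.Agent.Y480.KG
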