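import Pool.Agent.Y480.KG.RdfA

set_option autoImplicit false
set_option linter.unusedSectionVars false
set_option linter.unusedVariables false
set_option linter.unusedSimpArgs false

/-! Binary Hermitian forms over a number field: small vectors. -/

namespace Pool.Agent.Y480.KG

open Pool.Agent.Y714.KG
open NumberField Module Finset ComplexConjugate

section

variable (F : Type) [Field F] [NumberField F]

/-- a small vector -/
theorem mkq (h1 : S_MK) : ∃ C : ℝ, 0 < C ∧ ∀ (A B δ : (F →+* ℂ) → ℝ) (H : (F →+* ℂ) → ℂ) (γ : ℝ),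
    (∀ w, 0 < A w) → (∀ w, 0 < δ w) → (∀ w, δ w ^ 2 = A w * B w - ‖H w‖ ^ 2) →
    (∀ w, A (ComplexEmbedding.conjugate w) = A w) →
    (∀ w, B (ComplexEmbedding.conjugate w) = B w) →
    (∀ w, H (ComplexEmbedding.conjugate w) = conj (H w)) → 0 < γ →
    γ ^ Fintype.card (F →+* ℂ) = ∏ w, δ w →
    ∃ x y : 𝓞 F, ¬ (x = 0 ∧ y = 0) ∧
      ∀ w : F →+* ℂ, Qf (A w) (H w) (B w) (w (x : F)) (w (y : F)) ≤ C * γ := by
  obtain ⟨C, hC, hmk⟩ := h1 F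
  refine ⟨2 * C ^ 2, by positivity, fun A B δ H γ hA hδ hδ2 cA cB cH hγ hprod => ?_⟩
  have hδc : ∀ w, δ (ComplexEmbedding.conjugate w) = δ w := by
    intro w
    have e1 : δ (ComplexEmbedding.conjugate w) ^ 2 = δ w ^ 2 := by
      rw [hδ2, hδ2, cA, cB, cH, Complex.norm_conj]
    exact (pow_left_inj₀ (hδ _).le (hδ _).le two_ne_zero).1 e1
  obtain ⟨x, y, hne, hxy⟩ := hmk (fun w => √γ / √(A w)) (fun w => √γ * √(A w) / δ w)
    (fun w => conj (H w) / A w) (fun w => div_pos (Real.sqrt_pos.2 hγ) (Real.sqrt_pos.2 (hA w)))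
    (fun w => div_pos (mul_pos (Real.sqrt_pos.2 hγ) (Real.sqrt_pos.2 (hA w))) (hδ w))
    (fun w => by rw [cA]) (fun w => by rw [cA, hδc])
    (fun w => by rw [cA, cH, map_div₀, Complex.conj_ofReal])
    (by
      rw [← prod_mul_distrib]
      have e1 : ∀ w : F →+* ℂ, √γ / √(A w) * (√γ * √(A w) / δ w) = γ / δ w := by
        intro w
        have e2 : √(A w) ≠ 0 := (Real.sqrt_pos.2 (hA w)).ne'
        have e3 : √γ * √γ = γ := Real.mul_self_sqrt hγ.le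
        have e4 := (hδ w).ne'
        field_simp
        nlinarith [e3]
      rw [prod_congr rfl fun w _ => e1 w, prod_div_distrib, prod_const, card_univ, hprod,
        div_self (prod_pos fun w _ => hδ w).ne'])
  refine ⟨x, y, hne, fun w => ?_⟩
  obtain ⟨b1, b2⟩ := hxy w
  rw [Qf_sq (hA w), ← hδ2]
  have hs : √(A w) ^ 2 = A w := Real.sq_sqrt (hA w).le
  have hg : √γ ^ 2 = γ := Real.sq_sqrt hγ.le
  have hs0 : √(A w) ≠ 0 := (Real.sqrt_pos.2 (hA w)).ne'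
  have c1 : A w * ‖w (x : F) + conj (H w) / (A w) * w (y : F)‖ ^ 2 ≤ C ^ 2 * γ := by
    have e1 : ‖w (x : F) + conj (H w) / (A w) * w (y : F)‖ ^ 2 ≤ (C * (√γ / √(A w))) ^ 2 :=
      pow_le_pow_left₀ (norm_nonneg _) b1 2
    have e2 : A w * (C * (√γ / √(A w))) ^ 2 = C ^ 2 * γ := by
      rw [mul_pow, div_pow, hs, hg]
      have := (hA w).ne'
      field_simp
    rw [← e2]
    exact mul_le_mul_of_nonneg_left e1 (hA w).le
  have c2 : δ w ^ 2 / A w * ‖w (y : F)‖ ^ 2 ≤ C ^ 2 * γ := by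
    have e1 : ‖w (y : F)‖ ^ 2 ≤ (C * (√γ * √(A w) / δ w)) ^ 2 :=
      pow_le_pow_left₀ (norm_nonneg _) b2 2
    have e2 : δ w ^ 2 / A w * (C * (√γ * √(A w) / δ w)) ^ 2 = C ^ 2 * γ := by
      rw [mul_pow, div_pow, mul_pow, hs, hg]
      have := (hA w).ne'
      have := (hδ w).ne'
      field_simp
    rw [← e2]
    exact mul_le_mul_of_nonneg_left e1 (div_nonneg (sq_nonneg _) (hA w).le)
  linarith

theorem Qf_nonneg {A B δ : ℝ} {H : ℂ} (hA : 0 < A) (hδ : δ ^ 2 = A * B - ‖H‖ ^ 2) (x y : ℂ) :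
    0 ≤ Qf A H B x y := by
  rw [Qf_sq hA, ← hδ]
  positivity

theorem Qf_pos {A B δ : ℝ} {H : ℂ} (hA : 0 < A) (hd : 0 < δ) (hδ : δ ^ 2 = A * B - ‖H‖ ^ 2)
    {x y : ℂ} (h : ¬ (x = 0 ∧ y = 0)) : 0 < Qf A H B x y := by
  rw [Qf_sq hA, ← hδ]
  by_cases hy : y = 0
  · have hx : x ≠ 0 := fun hx => h ⟨hx, hy⟩
    rw [hy, mul_zero, add_zero, norm_zero]
    have := norm_pos_iff.2 hx
    positivity
  · have := norm_pos_iff.2 hy
    positivity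

theorem red (h1 : S_MK) : ∃ C : ℝ, 0 < C ∧ ∀ (A B δ : (F →+* ℂ) → ℝ) (H : (F →+* ℂ) → ℂ) (γ : ℝ),
    (∀ w, 0 < A w) → (∀ w, 0 < δ w) → (∀ w, δ w ^ 2 = A w * B w - ‖H w‖ ^ 2) →
    (∀ w, A (ComplexEmbedding.conjugate w) = A w) →
    (∀ w, B (ComplexEmbedding.conjugate w) = B w) →
    (∀ w, H (ComplexEmbedding.conjugate w) = conj (H w)) → 0 < γ →
    γ ^ Fintype.card (F →+* ℂ) = ∏ w, δ w →
    ∃ x₀ y₀ x₁ y₁ : 𝓞 F, x₀ * y₁ - y₀ * x₁ ≠ 0 ∧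
      ∏ w : F →+* ℂ, ‖w ((x₀ * y₁ - y₀ * x₁ : 𝓞 F) : F)‖ ≤ C ∧
      0 < ∑ w : F →+* ℂ, Qf (A w) (H w) (B w) (w (x₀ : F)) (w (y₀ : F)) ∧
      ∑ w : F →+* ℂ, Qf (A w) (H w) (B w) (w (x₀ : F)) (w (y₀ : F)) ≤ C * γ ∧
      (∑ w : F →+* ℂ, Qf (A w) (H w) (B w) (w (x₀ : F)) (w (y₀ : F))) *
        (∑ w : F →+* ℂ, Qf (A w) (H w) (B w) (w (x₁ : F)) (w (y₁ : F))) ≤ C * γ ^ 2 := by
  obtain ⟨C₀, hC₀, hq⟩ := mkq F h1
  obtain ⟨n, hn⟩ : ∃ n : ℕ, n = Fintype.card (F →+* ℂ) := ⟨_, rfl⟩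
  have hn1 : 1 ≤ n := by rw [hn]; exact Fintype.card_pos
  have hn1' : (1 : ℝ) ≤ n := by exact_mod_cast hn1
  have hn0 : (0 : ℝ) < n := by linarith
  refine ⟨1 + (8 * n ^ 2 * C₀ ^ 2) ^ n + 8 * n ^ 2 * C₀ ^ 2 + 2 * n * C₀, by positivity,
    fun A B δ H γ hA hδ hδ2 cA cB cH hγ hprod => ?_⟩
  obtain ⟨QQ, hQQ⟩ : ∃ QQ : 𝓞 F → 𝓞 F → ℝ, ∀ x y, QQ x y =
    ∑ w : F →+* ℂ, Qf (A w) (H w) (B w) (w (x : F)) (w (y : F)) := ⟨_, fun _ _ => rfl⟩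
  have hnn : ∀ (x y : 𝓞 F) (w : F →+* ℂ), 0 ≤ Qf (A w) (H w) (B w) (w (x : F)) (w (y : F)) :=
    fun x y w => Qf_nonneg (hA w) (hδ2 w) _ _
  have hle : ∀ (x y : 𝓞 F) (w : F →+* ℂ), Qf (A w) (H w) (B w) (w (x : F)) (w (y : F)) ≤ QQ x y :=
    fun x y w => by
      rw [hQQ]
      exact single_le_sum (f := fun w : F →+* ℂ => Qf (A w) (H w) (B w) (w (x : F)) (w (y : F)))
        (fun w _ => hnn x y w) (mem_univ w)
  have hQ0 : ∀ x y, 0 ≤ QQ x y := fun x y => by rw [hQQ]; exact sum_nonneg fun w _ => hnn x y w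
  have hsum : ∀ (x y : 𝓞 F) (c : ℝ), (∀ w : F →+* ℂ, Qf (A w) (H w) (B w) (w (x : F)) (w (y : F)) ≤ c) →
      QQ x y ≤ n * c := fun x y c h => by
    rw [hQQ]
    refine (sum_le_card_nsmul _ _ c fun w _ => h w).trans_eq ?_
    rw [card_univ, ← hn, nsmul_eq_mul]
  -- a lower bound
  obtain ⟨ε, hε, hlow⟩ : ∃ ε : ℝ, 0 < ε ∧ ∀ x y : 𝓞 F, ¬ (x = 0 ∧ y = 0) → ε ≤ QQ x y := by
    refine ⟨min 1 (min (∏ w, A w) (∏ w, δ w ^ 2 / A w)), lt_min one_pos (lt_min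
      (prod_pos fun w _ => hA w) (prod_pos fun w _ => div_pos (pow_pos (hδ w) 2) (hA w))),
      fun x y hxy => ?_⟩
    by_contra hcon
    push Not at hcon
    obtain ⟨h2, h3⟩ := lt_min_iff.1 hcon
    obtain ⟨h4, h5⟩ := lt_min_iff.1 h3
    have h6 : ∏ w : F →+* ℂ, Qf (A w) (H w) (B w) (w (x : F)) (w (y : F)) ≤ QQ x y := by
      calc ∏ w : F →+* ℂ, Qf (A w) (H w) (B w) (w (x : F)) (w (y : F)) ≤
          ∏ w : F →+* ℂ, QQ x y := prod_le_prod (fun w _ => hnn x y w) fun w _ => hle x y w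
        _ = QQ x y ^ n := by rw [prod_const, card_univ, hn]
        _ ≤ QQ x y ^ 1 := pow_le_pow_of_le_one (hQ0 x y) h2.le hn1
        _ = QQ x y := pow_one _
    by_cases hy : y = 0
    · have hx : x ≠ 0 := fun hx => hxy ⟨hx, hy⟩
      have h7 : ∏ w, A w ≤ ∏ w : F →+* ℂ, Qf (A w) (H w) (B w) (w (x : F)) (w (y : F)) := by
        have h8 : ∀ w : F →+* ℂ, Qf (A w) (H w) (B w) (w (x : F)) (w (y : F)) =
            A w * ‖w (x : F)‖ ^ 2 := fun w => by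
          rw [Qf_sq (hA w), hy]
          simp
        rw [prod_congr rfl fun w _ => h8 w, prod_mul_distrib, prod_pow]
        have h9 := one_le_prod F hx
        have h10 : 1 ≤ (∏ w : F →+* ℂ, ‖w (x : F)‖) ^ 2 := one_le_pow₀ h9
        exact le_mul_of_one_le_right (prod_nonneg fun w _ => (hA w).le) h10
      linarith
    · have h7 : ∏ w, δ w ^ 2 / A w ≤
          ∏ w : F →+* ℂ, Qf (A w) (H w) (B w) (w (x : F)) (w (y : F)) := by
        have h8 : ∀ w : F →+* ℂ, δ w ^ 2 / A w * ‖w (y : F)‖ ^ 2 ≤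
            Qf (A w) (H w) (B w) (w (x : F)) (w (y : F)) := fun w => by
          rw [Qf_sq (hA w), ← hδ2]
          have := mul_nonneg (hA w).le
            (sq_nonneg ‖w (x : F) + conj (H w) / (A w) * w (y : F)‖)
          linarith
        have h9 := one_le_prod F hy
        have h10 : 1 ≤ (∏ w : F →+* ℂ, ‖w (y : F)‖) ^ 2 := one_le_pow₀ h9
        calc ∏ w, δ w ^ 2 / A w ≤ (∏ w, δ w ^ 2 / A w) * (∏ w : F →+* ℂ, ‖w (y : F)‖) ^ 2 :=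
              le_mul_of_one_le_right (prod_nonneg fun w _ =>
                div_nonneg (sq_nonneg _) (hA w).le) h10
          _ = ∏ w : F →+* ℂ, (δ w ^ 2 / A w * ‖w (y : F)‖ ^ 2) := by
              rw [prod_mul_distrib, prod_pow]
          _ ≤ _ := prod_le_prod (fun w _ => mul_nonneg (div_nonneg (sq_nonneg _) (hA w).le)
              (sq_nonneg _)) fun w _ => h8 w
      linarith
  -- an almost minimal vector
  obtain ⟨x₀, y₀, hne, hmin⟩ : ∃ x₀ y₀ : 𝓞 F, ¬ (x₀ = 0 ∧ y₀ = 0) ∧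
      ∀ x y : 𝓞 F, ¬ (x = 0 ∧ y = 0) → QQ x₀ y₀ ≤ 2 * QQ x y := by
    let S : Set ℝ := {r | ∃ x y : 𝓞 F, ¬ (x = 0 ∧ y = 0) ∧ r = QQ x y}
    have hS : S.Nonempty := ⟨_, 1, 0, by simp, rfl⟩
    have hb : BddBelow S := ⟨ε, by rintro _ ⟨x, y, h, rfl⟩; exact hlow x y h⟩
    have hI : ε ≤ sInf S := le_csInf hS (by rintro _ ⟨x, y, h, rfl⟩; exact hlow x y h)
    obtain ⟨_, ⟨x, y, h, rfl⟩, hlt⟩ := exists_lt_of_csInf_lt hS
      (show sInf S < 2 * sInf S by linarith)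
    refine ⟨x, y, h, fun x' y' h' => ?_⟩
    have := csInf_le hb ⟨x', y', h', rfl⟩
    linarith
  obtain ⟨a, ha⟩ : ∃ a, a = QQ x₀ y₀ := ⟨_, rfl⟩
  have ha0 : 0 < a := by rw [ha]; exact lt_of_lt_of_le hε (hlow _ _ hne)
  have ha1 : a ≤ 2 * n * C₀ * γ := by
    obtain ⟨x, y, h, hxy⟩ := hq A B δ H γ hA hδ hδ2 cA cB cH hγ hprod
    have e1 := hmin x y h
    have e2 := hsum x y _ hxy
    rw [← ha] at e1
    nlinarith
  have hinj : ∀ (w : F →+* ℂ) (x y : 𝓞 F), ¬ (x = 0 ∧ y = 0) → ¬ (w (x : F) = 0 ∧ w (y : F) = 0) := by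
    intro w x y h h'
    apply h
    constructor
    · have := (map_eq_zero w).1 h'.1
      exact_mod_cast this
    · have := (map_eq_zero w).1 h'.2
      exact_mod_cast this
  obtain ⟨q, hqe⟩ : ∃ q : (F →+* ℂ) → ℝ, ∀ w, q w =
    Qf (A w) (H w) (B w) (w (x₀ : F)) (w (y₀ : F)) := ⟨_, fun _ => rfl⟩
  have hq0 : ∀ w, 0 < q w := fun w => by
    rw [hqe]; exact Qf_pos (hA w) (hδ w) (hδ2 w) (hinj w _ _ hne)
  obtain ⟨s2, hs2⟩ : ∃ s2 : ℝ, s2 = a / (8 * C₀ * n) := ⟨_, rfl⟩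
  obtain ⟨t2, ht2⟩ : ∃ t2 : ℝ, t2 = γ ^ 2 / s2 := ⟨_, rfl⟩
  have hs0 : 0 < s2 := by rw [hs2]; positivity
  have ht0 : 0 < t2 := by rw [ht2]; positivity
  have hst : s2 * t2 = γ ^ 2 := by rw [ht2]; field_simp
  have hs4 : s2 ≤ γ / 4 := by
    rw [hs2, div_le_iff₀ (by positivity)]
    nlinarith
  have hts : 2 * s2 ≤ t2 := by
    rw [ht2, le_div_iff₀ hs0]
    nlinarith
  have hrr : 1 / (2 * s2) ≤ 1 / s2 - 1 / t2 := by
    have : 1 / t2 ≤ 1 / (2 * s2) := one_div_le_one_div_of_le (by positivity) hts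
    have e : 1 / s2 = 1 / (2 * s2) + 1 / (2 * s2) := by field_simp; norm_num
    linarith
  have hrr0 : 0 < 1 / s2 - 1 / t2 := lt_of_lt_of_le (by positivity) hrr
  obtain ⟨k, hk⟩ : ∃ k : (F →+* ℂ) → ℝ, ∀ w, k w = (1 / s2 - 1 / t2) / q w := ⟨_, fun _ => rfl⟩
  have hk0 : ∀ w, 0 < k w := fun w => by rw [hk]; exact div_pos hrr0 (hq0 w)
  obtain ⟨g, hg⟩ : ∃ g : (F →+* ℂ) → ℂ, ∀ w, g w =
    A w * conj (w (x₀ : F)) + H w * conj (w (y₀ : F)) := ⟨_, fun _ => rfl⟩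
  obtain ⟨h, hh⟩ : ∃ h : (F →+* ℂ) → ℂ, ∀ w, h w =
    conj (H w) * conj (w (x₀ : F)) + B w * conj (w (y₀ : F)) := ⟨_, fun _ => rfl⟩
  have cg : ∀ w, g (ComplexEmbedding.conjugate w) = conj (g w) := fun w => by
    rw [hg, hg, cA, cH, ComplexEmbedding.conjugate_coe_eq, ComplexEmbedding.conjugate_coe_eq,
      map_add, map_mul, map_mul, Complex.conj_ofReal]
  have ch : ∀ w, h (ComplexEmbedding.conjugate w) = conj (h w) := fun w => by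
    rw [hh, hh, cB, cH, ComplexEmbedding.conjugate_coe_eq, ComplexEmbedding.conjugate_coe_eq,
      map_add, map_mul, map_mul, Complex.conj_ofReal]
  have cq : ∀ w, q (ComplexEmbedding.conjugate w) = q w := fun w => by
    rw [hqe, hqe, cA, cB, cH, ComplexEmbedding.conjugate_coe_eq, ComplexEmbedding.conjugate_coe_eq,
      Qf_conj]
  have ck : ∀ w, k (ComplexEmbedding.conjugate w) = k w := fun w => by rw [hk, hk, cq]
  obtain ⟨x₁, y₁, hne1, hb1⟩ := hq (fun w => 1 / t2 * A w + k w * ‖g w‖ ^ 2)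
    (fun w => 1 / t2 * B w + k w * ‖h w‖ ^ 2) (fun w => δ w / γ)
    (fun w => ((1 / t2 : ℝ) : ℂ) * H w + k w * (g w * conj (h w))) 1
    (fun w => by have := hA w; have := hk0 w; positivity)
    (fun w => div_pos (hδ w) hγ)
    (fun w => by
      have e := det_add (A w) (H w) (B w) (1 / t2) (k w) (w (x₀ : F)) (w (y₀ : F))
      rw [← hg, ← hh, ← hqe, ← hδ2, hk, div_mul_cancel₀ _ (hq0 w).ne'] at e
      rw [hk, e, div_pow]
      have e1 : 1 / t2 * (1 / t2 + (1 / s2 - 1 / t2)) = 1 / (s2 * t2) := by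
        field_simp
        ring
      rw [e1, hst]
      ring)
    (fun w => by rw [cA, ck, cg, Complex.norm_conj])
    (fun w => by rw [cB, ck, ch, Complex.norm_conj])
    (fun w => by
      rw [cH, ck, cg, ch, map_add, map_mul, map_mul, map_mul, Complex.conj_ofReal,
        Complex.conj_ofReal])
    one_pos
    (by rw [one_pow, prod_div_distrib, prod_const, card_univ, hprod,
      div_self (prod_pos fun w _ => hδ w).ne'])
  have hb2 : ∀ w : F →+* ℂ, 1 / t2 * Qf (A w) (H w) (B w) (w (x₁ : F)) (w (y₁ : F)) +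
      k w * ‖w (x₁ : F) * g w + w (y₁ : F) * h w‖ ^ 2 ≤ C₀ := fun w => by
    rw [← Qf_add]
    have := hb1 w
    rwa [mul_one] at this
  have hQ1 : ∀ w : F →+* ℂ, Qf (A w) (H w) (B w) (w (x₁ : F)) (w (y₁ : F)) ≤ C₀ * t2 := fun w => by
    have e1 := hb2 w
    have e2 : 0 ≤ k w * ‖w (x₁ : F) * g w + w (y₁ : F) * h w‖ ^ 2 := by
      have := hk0 w; positivity
    have e3 : 1 / t2 * Qf (A w) (H w) (B w) (w (x₁ : F)) (w (y₁ : F)) ≤ C₀ := by linarith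
    rwa [one_div, inv_mul_le_iff₀ ht0, mul_comm] at e3
  have hprod2 : a * QQ x₁ y₁ ≤ 8 * n ^ 2 * C₀ ^ 2 * γ ^ 2 := by
    have e1 := hsum x₁ y₁ _ hQ1
    have e2 : a * (n * (C₀ * t2)) = 8 * n ^ 2 * C₀ ^ 2 * γ ^ 2 := by
      have : a = 8 * C₀ * n * s2 := by rw [hs2]; field_simp
      rw [this, ← hst]; ring
    rw [← e2]
    exact mul_le_mul_of_nonneg_left e1 ha0.le
  have hΔ : x₀ * y₁ - y₀ * x₁ ≠ 0 := by
    intro h0
    have e0 : ∀ w : F →+* ℂ, w (x₁ : F) * w (y₀ : F) - w (y₁ : F) * w (x₀ : F) = 0 := by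
      intro w
      have : ((x₀ * y₁ - y₀ * x₁ : 𝓞 F) : F) = 0 := by rw [h0]; simp
      have e : w ((x₀ * y₁ - y₀ * x₁ : 𝓞 F) : F) = 0 := by rw [this, map_zero]
      push_cast at e
      rw [map_sub, map_mul, map_mul] at e
      linear_combination -e
    have e3 : ∀ w : F →+* ℂ, Qf (A w) (H w) (B w) (w (x₁ : F)) (w (y₁ : F)) ≤ a / (4 * n) := by
      intro w
      have e4 := lag (A w) (H w) (B w) (w (x₁ : F)) (w (y₁ : F)) (w (x₀ : F)) (w (y₀ : F))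
      rw [e0 w, norm_zero, Hf_eq, ← hg, ← hh, ← hqe] at e4
      have e5 : ‖w (x₁ : F) * g w + w (y₁ : F) * h w‖ ^ 2 =
          Qf (A w) (H w) (B w) (w (x₁ : F)) (w (y₁ : F)) * q w := by linarith
      have e6 := hb2 w
      rw [e5, hk] at e6
      have e7 : (1 / s2 - 1 / t2) / q w *
          (Qf (A w) (H w) (B w) (w (x₁ : F)) (w (y₁ : F)) * q w) = (1 / s2 - 1 / t2) *
          Qf (A w) (H w) (B w) (w (x₁ : F)) (w (y₁ : F)) := by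
        have := (hq0 w).ne'
        field_simp
      rw [e7] at e6
      have e8 := hnn x₁ y₁ w
      have e9 : 1 / s2 * Qf (A w) (H w) (B w) (w (x₁ : F)) (w (y₁ : F)) ≤ C₀ := by
        have : 1 / t2 * Qf (A w) (H w) (B w) (w (x₁ : F)) (w (y₁ : F)) + (1 / s2 - 1 / t2) *
          Qf (A w) (H w) (B w) (w (x₁ : F)) (w (y₁ : F)) = 1 / s2 *
          Qf (A w) (H w) (B w) (w (x₁ : F)) (w (y₁ : F)) := by ring
        linarith
      rw [one_div, inv_mul_le_iff₀ hs0] at e9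
      refine e9.trans ?_
      rw [hs2]
      have : a / (8 * C₀ * n) * C₀ = a / (8 * n) := by field_simp
      rw [this]
      exact div_le_div_of_nonneg_left ha0.le (by positivity) (by linarith)
    have e10 := hsum x₁ y₁ _ e3
    have e11 : (n : ℝ) * (a / (4 * n)) = a / 4 := by field_simp
    rw [e11] at e10
    have e12 := hmin x₁ y₁ hne1
    rw [← ha] at e12
    linarith
  refine ⟨x₀, y₀, x₁, y₁, hΔ, ?_, ?_, ?_, ?_⟩
  · -- the index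
    have e1 : ∀ w : F →+* ℂ, δ w ^ 2 * ‖w ((x₀ * y₁ - y₀ * x₁ : 𝓞 F) : F)‖ ^ 2 ≤
        8 * n ^ 2 * C₀ ^ 2 * γ ^ 2 := by
      intro w
      have e2 := lag (A w) (H w) (B w) (w (x₀ : F)) (w (y₀ : F)) (w (x₁ : F)) (w (y₁ : F))
      have e3 : w (x₀ : F) * w (y₁ : F) - w (y₀ : F) * w (x₁ : F) =
          w ((x₀ * y₁ - y₀ * x₁ : 𝓞 F) : F) := by push_cast; rw [map_sub, map_mul, map_mul]
      rw [e3, ← hδ2] at e2
      have e4 : Qf (A w) (H w) (B w) (w (x₀ : F)) (w (y₀ : F)) *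
          Qf (A w) (H w) (B w) (w (x₁ : F)) (w (y₁ : F)) ≤ QQ x₀ y₀ * QQ x₁ y₁ :=
        mul_le_mul (hle _ _ _) (hle _ _ _) (hnn _ _ _) (hQ0 _ _)
      rw [← ha] at e4
      have e5 := sq_nonneg ‖Hf (A w) (H w) (B w) (w (x₀ : F)) (w (y₀ : F)) (w (x₁ : F))
        (w (y₁ : F))‖
      linarith
    have e2 : (∏ w, δ w) ^ 2 * (∏ w : F →+* ℂ, ‖w ((x₀ * y₁ - y₀ * x₁ : 𝓞 F) : F)‖) ^ 2 ≤
        (8 * n ^ 2 * C₀ ^ 2) ^ n * (∏ w, δ w) ^ 2 := by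
      calc (∏ w, δ w) ^ 2 * (∏ w : F →+* ℂ, ‖w ((x₀ * y₁ - y₀ * x₁ : 𝓞 F) : F)‖) ^ 2 =
          ∏ w : F →+* ℂ, (δ w ^ 2 * ‖w ((x₀ * y₁ - y₀ * x₁ : 𝓞 F) : F)‖ ^ 2) := by
            rw [prod_mul_distrib, prod_pow, prod_pow]
        _ ≤ ∏ w : F →+* ℂ, (8 * n ^ 2 * C₀ ^ 2 * γ ^ 2) :=
            prod_le_prod (fun w _ => by positivity) fun w _ => e1 w
        _ = (8 * n ^ 2 * C₀ ^ 2) ^ n * (γ ^ n) ^ 2 := by
            rw [prod_const, card_univ, ← hn]; ring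
        _ = _ := by rw [hn, hprod]
    have e3 : 0 < (∏ w, δ w) ^ 2 := pow_pos (prod_pos fun w _ => hδ w) 2
    have e4 : (∏ w : F →+* ℂ, ‖w ((x₀ * y₁ - y₀ * x₁ : 𝓞 F) : F)‖) ^ 2 ≤
        (8 * n ^ 2 * C₀ ^ 2) ^ n := by
      rw [mul_comm] at e2
      exact le_of_mul_le_mul_right e2 e3
    have e5 : 0 ≤ 8 * (n : ℝ) ^ 2 * C₀ ^ 2 + 2 * n * C₀ := by positivity
    nlinarith [sq_nonneg ((∏ w : F →+* ℂ, ‖w ((x₀ * y₁ - y₀ * x₁ : 𝓞 F) : F)‖) - 1)]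
  · rw [← hQQ, ← ha]; exact ha0
  · rw [← hQQ, ← ha]
    have : 0 ≤ (1 + (8 * (n : ℝ) ^ 2 * C₀ ^ 2) ^ n + 8 * n ^ 2 * C₀ ^ 2) * γ := by positivity
    nlinarith
  · rw [← hQQ, ← hQQ, ← ha]
    have : 0 ≤ (1 + (8 * (n : ℝ) ^ 2 * C₀ ^ 2) ^ n + 2 * n * C₀) * γ ^ 2 := by positivity
    nlinarith

end

end Pool.Agent.Y480.KG
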